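import Pool.Agent.Lib.MP_9ff3e7_ag.Main
import Pool.Agent.Lib.MP_9ff3e7_ag.GMain

namespace Pool.Agent.Lib.MP_9ff3e7_ag.Old.AllCodim

open MvPolynomial

/-- Fujita freeness on weighted complete intersections of any codimension. `X` is cut out in the
weighted projective space `P(w)` (with `N` coordinates) by `c` forms of degrees `d j`, the group `ℂˣ`
acts freely on the punctured affine cone, `n = N - 1 - c`, and `K_X = O(∑ d - ∑ w)`. For every point
`x` of the cone and every `m ≥ deg K_X + n + 1` some form of degree `m` does not vanish at `x`. -/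
theorem result (N c : ℕ) (w : Fin N → ℕ) (d : Fin c → ℕ) (f : Fin c → MvPolynomial (Fin N) ℂ)
    (hw : ∀ i, 0 < w i) (hd : ∀ j, 0 < d j) (hf : ∀ j, (f j).IsWeightedHomogeneous w (d j))
    (free : ∀ y : Fin N → ℂ, y ≠ 0 → (∀ j, eval y (f j) = 0) →
      ∀ t : ℂ, (∀ i, t ^ w i * y i = y i) → t = 1)
    (x : Fin N → ℂ) (hx0 : x ≠ 0) (hx : ∀ j, eval x (f j) = 0)
    (m : ℤ) (hm : (∑ j, (d j : ℤ) - ∑ i, (w i : ℤ)) + ((N : ℤ) - 1 - c) + 1 ≤ m) :
    0 ≤ m ∧ ∃ g : MvPolynomial (Fin N) ℂ, g.IsWeightedHomogeneous w m.toNat ∧ eval x g ≠ 0 := by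
  have fr := fun y h1 h2 => Pool.Agent.Lib.MP_9ff3e7_ag.free_prime w y (free y h1 h2)
  have h0 : 0 ≤ m := by
    have := Pool.Agent.Lib.MP_9ff3e7_ag.nonneg w d f hw hd hf fr
    simp only [Fintype.card_fin, Nat.cast_sum] at this
    exact this.trans hm
  refine ⟨h0, ?_⟩
  lift m to ℕ using h0
  obtain ⟨γ, h1, h2⟩ := Pool.Agent.Lib.MP_9ff3e7_ag.G.all hw hd m _ Finset.univ Finset.univ f x
    (Finset.univ.filter fun i => x i ≠ 0) (Nat.lt_succ_self _)
    ⟨fun j _ => hf j, fun y h1 _ h2 => fr y h1 fun j => h2 j (Finset.mem_univ _)⟩ (by simp)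
    (Finset.subset_univ _) hx0 (fun j _ => hx j) (by
      have : (∑ j, (d j : ℝ) - ∑ i, (w i : ℝ)) + ((N : ℝ) - 1 - c) + 1 ≤ m := by exact_mod_cast hm
      simp only [Finset.sum_sub_distrib, Finset.sum_const, Finset.card_univ, Fintype.card_fin,
        nsmul_eq_mul, mul_one]
      linarith)
  refine ⟨monomial γ 1, isWeightedHomogeneous_monomial _ _ _ h2, ?_⟩
  rw [eval_monomial, one_mul]
  exact Finset.prod_ne_zero_iff.2 fun i hi =>
    pow_ne_zero _ (Finset.mem_filter.1 (h1 i (Finsupp.mem_support_iff.1 hi))).2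

end Pool.Agent.Lib.MP_9ff3e7_ag.Old.AllCodim
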