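import Pool.Agent.Lib.MP_9ff3e7_ag.CoxMain

namespace Pool.Agent.Lib.MP_9ff3e7_ag.Old.HypersurfaceCox

open MvPolynomial Pool.Agent.Lib.MP_9ff3e7_ag.Cox

/-- Fujita freeness for smooth projective varieties with a hypersurface Cox ring
`ℂ[x_1, …, x_N] / (f)`, graded by the class group `K`. The set `X` is the characteristic space
(the `A`-semistable zeros of `f`), the quasitorus of characters of `K` acts freely on it, the
quotient has dimension `N - 1 - rank K` and canonical class `μ - ∑ w i`. -/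
theorem result (K : Type) [AddCommGroup K] (N : ℕ) (w : Fin N → K)
    (pointed : ∀ d : Fin N →₀ ℕ, Finsupp.weight w d = 0 → d = 0)
    (f : MvPolynomial (Fin N) ℂ) (μ : K) (hf : f.IsWeightedHomogeneous w μ) (A : K)
    (X : Set (Fin N → ℂ))
    (hX : X = {y | eval y f = 0 ∧ ∃ k : ℕ, 0 < k ∧
      ∃ g : MvPolynomial (Fin N) ℂ, g.IsWeightedHomogeneous w (k • A) ∧ eval y g ≠ 0})
    (free : ∀ y ∈ X, ∀ χ : AddChar K ℂ, (∀ i, χ (w i) * y i = y i) → χ = 1)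
    (smooth : ∀ y ∈ X, ∃ i, eval y (pderiv i f) ≠ 0)
    (m : ℕ) (hm : ((N : ℤ) - 1 - Module.finrank ℤ K) + 1 ≤ m) :
    ∀ x ∈ X, ∃ g : MvPolynomial (Fin N) ℂ,
      g.IsWeightedHomogeneous w ((μ - ∑ i, w i) + m • A) ∧ eval x g ≠ 0 := by
  subst hX
  have mem : ∀ y I, (∀ i, y i ≠ 0 ↔ i ∈ I) → SS w A I → ∃ k : ℕ, 0 < k ∧
      ∃ g : MvPolynomial (Fin N) ℂ, g.IsWeightedHomogeneous w (k • A) ∧ eval y g ≠ 0 :=
    fun y I hy ⟨k, hk, d, h1, h2⟩ => ⟨k, hk, monomial d 1, isWeightedHomogeneous_monomial _ _ _ h2,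
      (eval_monomial_ne hy).2 ⟨one_ne_zero, h1⟩⟩
  rintro x ⟨h0, k, hk, g, hg, hx⟩
  have hy : ∀ i, x i ≠ 0 ↔ i ∈ Finset.univ.filter fun i => x i ≠ 0 := by simp
  obtain ⟨d, h1, h2⟩ := exists_on hy hx
  obtain ⟨e, h3, h4⟩ := main pointed hf
    (fun I hS ⟨y, h0, hy⟩ => gen_of_free hy (free y ⟨h0, mem y I hy hS⟩))
    (fun y I hy h0 hS => smooth y ⟨h0, mem y I hy hS⟩) (m := m)
    (by rw [Fintype.card_fin]; omega) _ ⟨k, hk, d, h2, hg (mem_support_iff.1 h1)⟩ ⟨x, h0, hy⟩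
  exact ⟨monomial e 1, isWeightedHomogeneous_monomial _ _ _ h4,
    (eval_monomial_ne hy).2 ⟨one_ne_zero, h3⟩⟩

end Pool.Agent.Lib.MP_9ff3e7_ag.Old.HypersurfaceCox
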