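import Pool.Agent.Lib.MP_9ff3e7_ag.TTan

namespace Pool.Agent.Lib.MP_9ff3e7_ag.Old.TorusFree

open MvPolynomial Pool.Agent.Lib.MP_9ff3e7_ag.Tor

/-- Fujita freeness for smooth projective varieties with a torus action whose maximal orbit
quotient is `ℙ^c`, in Cox coordinates `z_0, …, z_c, T_1, …, T_N` with the relations
`T ^ (l i) = g i (z)`. The set `Y` is the characteristic space, the characters of `K` act freely on
it, and the quotient has dimension `c + 1 + N - r - rank K`. -/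
theorem result (K : Type) [AddCommGroup K] (c N r : ℕ) (μ : K) (w : Fin N → K)
    (W : Fin (c + 1) ⊕ Fin N → K) (hW : W = Sum.elim (fun _ => μ) w)
    (pointed : ∀ d : Fin (c + 1) ⊕ Fin N →₀ ℕ, Finsupp.weight W d = 0 → d = 0)
    (l : Fin r → Fin N → ℕ) (disjoint : ∀ i j s, l i s ≠ 0 → l j s ≠ 0 → i = j)
    (e : Fin r → ℕ) (he : ∀ i, 0 < e i) (deg : ∀ i, ∑ s, l i s • w s = e i • μ)
    (g : Fin r → MvPolynomial (Fin (c + 1)) ℂ) (hg : ∀ i, (g i).IsHomogeneous (e i))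
    (f : Fin r → MvPolynomial (Fin (c + 1) ⊕ Fin N) ℂ)
    (hf : ∀ i, f i = ∏ s, X (Sum.inr s) ^ l i s - rename Sum.inl (g i))
    (torus : ∀ (p : Fin N → ℤ) (q : ℤ) (d : ℕ) (t : Fin r → ℤ), 0 < d → ∑ s, p s • w s = q • μ →
      (∀ s, d * p s = ∑ i, t i * l i s) → d * q = ∑ i, t i * e i → ∀ i, (d : ℤ) ∣ t i)
    (A : K) (Y : Set (Fin (c + 1) ⊕ Fin N → ℂ))
    (hY : Y = {y | (∀ i, eval y (f i) = 0) ∧ ∃ k : ℕ, 0 < k ∧
      ∃ s : MvPolynomial (Fin (c + 1) ⊕ Fin N) ℂ, s.IsWeightedHomogeneous W (k • A) ∧ eval y s ≠ 0})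
    (free : ∀ y ∈ Y, ∀ χ : AddChar K ℂ, (∀ t, χ (W t) * y t = y t) → χ = 1)
    (smooth : ∀ y ∈ Y, LinearIndependent ℂ fun i t => eval y (pderiv t (f i)))
    (m : ℕ) (hm : ((c : ℤ) + 1 + N - r - Module.finrank ℤ K) + 1 ≤ m) :
    ∀ x ∈ Y, ∃ s : MvPolynomial (Fin (c + 1) ⊕ Fin N) ℂ,
      s.IsWeightedHomogeneous W ((∑ i, e i • μ - ∑ t, W t) + m • A) ∧ eval x s ≠ 0 := by
  obtain rfl : f = _ := funext hf
  subst hW
  let E : Dat c (Fin N) (Fin r) K := ⟨w, μ, A, l, e, g⟩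
  have mem : ∀ y, y ∈ Y ↔ E.Eqn y ∧ E.SS (supp y) := fun y => by
    rw [hY, Dat.eqn_iff, Dat.ss_iff]
    rfl
  have H : E.Hyp := Dat.hyp_of he hg disjoint deg (Dat.pointed_of (D := E) pointed) torus
    (fun y a b => free y ((mem y).2 ⟨a, b⟩)) fun y a b => smooth y ((mem y).2 ⟨a, b⟩)
  have hm' : E.Bd 1 m := by simpa [Dat.Bd] using hm
  intro x hx
  have := H.bpf le_rfl hm' ((mem x).1 hx).1 ((mem x).1 hx).2
  rwa [← Dat.Dv_eq] at this

end Pool.Agent.Lib.MP_9ff3e7_ag.Old.TorusFree
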